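import Pool.Agent.Helper797.ZnUp

/-!
Exact values of `Z(n)` for `n ≤ 11`, and `Z(n) ≥ 2` for all `n ≥ 3`.

`N A` is the number (in `ℕ∞`) of `θ ∈ [0,1)` with `∑_{a ∈ A} cos(2π a θ) = 0`, and `Z n` is the
infimum of `N A` over all `n`-element `A ⊂ ℤ`.
Lower bound: average over the points `(2j+1)/2^(k+1)`, `k` the largest 2-adic valuation of a nonzero
element of `A`. Upper bound: explicit sets, exact Bernstein certificates for the polynomials
`∑ T_|a|(c)` on `[-1,1]`.
-/

set_option autoImplicit false

namespace Pool.Agent.Results.MP_78a764_an.SmallN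

open MP_78a764_an_797

theorem result :
    Z 1 = 0 ∧ Z 2 = 1 ∧ (∀ n : ℕ, 3 ≤ n → 2 ≤ Z n) ∧ (∀ n : ℕ, 3 ≤ n → n ≤ 11 → Z n = 2) := by
  have hlow : ∀ n : ℕ, 3 ≤ n → 2 ≤ Z n := by
    intro n hn
    unfold Z
    refine le_iInf fun A => two_le_N A.1 ?_
    rw [A.2]; exact hn
  refine ⟨?_, ?_, hlow, ?_⟩
  · refine le_antisymm ?_ (by simp)
    unfold Z
    refine iInf_le_of_le ⟨{0}, by decide⟩ ?_
    have : zeros {0} = ∅ := by
      ext θ
      simp [zeros, f]
    simp [N, this]
  · refine le_antisymm ?_ ?_
    · unfold Z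
      refine iInf_le_of_le ⟨{0, 1}, by decide⟩ ?_
      have hsub : zeros {0, 1} ⊆ {1 / 2} := by
        rintro θ ⟨h0, h1, h⟩
        have h' : 1 + Real.cos (2 * Real.pi * θ) = 0 := by
          have e : f {0, 1} θ = 1 + Real.cos (2 * Real.pi * θ) := by
            unfold f
            rw [Finset.sum_insert (by decide), Finset.sum_singleton]
            push_cast
            simp
          rw [← e]; exact h
        have hc : Real.cos (2 * Real.pi * θ) = Real.cos Real.pi := by
          rw [Real.cos_pi]; linarith
        rw [Real.cos_eq_cos_iff] at hc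
        have hpi := Real.pi_pos
        obtain ⟨k, hk | hk⟩ := hc
        · have e : 1 = 2 * (k : ℝ) + 2 * θ := by
            have : Real.pi * 1 = Real.pi * (2 * (k : ℝ) + 2 * θ) := by linarith
            exact mul_left_cancel₀ hpi.ne' this
          have hk1 : (k : ℝ) < 1 := by linarith
          have hk2 : (-1 : ℝ) < k := by linarith
          have hk1' : k < 1 := by exact_mod_cast hk1
          have hk2' : -1 < k := by exact_mod_cast hk2
          have : k = 0 := by omega
          subst this
          rw [Set.mem_singleton_iff]; push_cast at e; linarith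
        · have e : 1 = 2 * (k : ℝ) - 2 * θ := by
            have : Real.pi * 1 = Real.pi * (2 * (k : ℝ) - 2 * θ) := by linarith
            exact mul_left_cancel₀ hpi.ne' this
          have hk1 : (k : ℝ) < 2 := by linarith
          have hk2 : (0 : ℝ) < k := by linarith
          have hk1' : k < 2 := by exact_mod_cast hk1
          have hk2' : 0 < k := by exact_mod_cast hk2
          have : k = 1 := by omega
          subst this
          rw [Set.mem_singleton_iff]; push_cast at e; linarith
      unfold N
      refine (Set.encard_le_encard hsub).trans ?_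
      rw [Set.encard_singleton]
    · unfold Z
      refine le_iInf fun A => one_le_N A.1 ?_
      rw [A.2]
  · intro n h3 h11
    refine le_antisymm ?_ (hlow n h3)
    unfold Z
    interval_cases n
    · exact iInf_le_of_le ⟨A3, card3⟩ N3
    · exact iInf_le_of_le ⟨A4, card4⟩ N4
    · exact iInf_le_of_le ⟨A5, card5⟩ N5
    · exact iInf_le_of_le ⟨A6, card6⟩ N6
    · exact iInf_le_of_le ⟨A7, card7⟩ N7
    · exact iInf_le_of_le ⟨A8, card8⟩ N8
    · exact iInf_le_of_le ⟨A9, card9⟩ N9
    · exact iInf_le_of_le ⟨A10, card10⟩ N10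
    · exact iInf_le_of_le ⟨A11, card11⟩ N11

end Pool.Agent.Results.MP_78a764_an.SmallN
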